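import Pool.Agent.P.MP_7884fa_an.Regular
import Pool.Agent.P.MP_7884fa_an.CtGhost
import Pool.Agent.P.MP_7884fa_an.CtInt
import Pool.Agent.P.MP_7884fa_an.CtPlain

namespace Pool.Agent.Results.MP_7884fa_an.FiniteToOne

open Pool.Agent.P.MP_7884fa_an

/-- The property passes from `X` to `Y` along every coarse (bornologous), uniformly finite-to-one
map `Y → X`; no lower control function is needed. -/
theorem result {X Y : Type*} [MetricSpace X] [MetricSpace Y] (hX : ULF X) (f : Y → X)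
    (hu : ∀ R : ℝ, ∃ R' : ℝ, ∀ y y', dist y y' ≤ R → dist (f y) (f y') ≤ R')
    (hN : ∃ N : ℕ, ∀ x, (f ⁻¹' {x}).encard ≤ N)
    (h : OnlyCompactGhostProj X) : OnlyCompactGhostProj Y := by
  obtain ⟨N, hN⟩ := hN
  refine main_regular (fun x r => ?_) f hu N hN h
  obtain ⟨M, hM⟩ := hX (max r 1) (by positivity)
  exact (Set.finite_of_encard_le_coe (hM x)).subset (Metric.ball_subset_ball (le_max_left _ _))

/-- Q1 is the case of a coarse embedding of a uniformly locally finite space. -/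
theorem q1 {X Y : Type*} [MetricSpace X] [MetricSpace Y] (hX : ULF X) (hY : ULF Y)
    (f : Y → X) (hf : IsCoarseEmbedding f) (h : OnlyCompactGhostProj X) :
    OnlyCompactGhostProj Y := by
  refine result hX f hf.upper ?_ h
  obtain ⟨t, ht⟩ := hf.lower 1
  obtain ⟨N, hN⟩ := hY (max t 1) (by positivity)
  refine ⟨N, fun x => ?_⟩
  rcases (f ⁻¹' {x}).eq_empty_or_nonempty with h0 | ⟨y₀, hy₀⟩
  · rw [h0]; simp
  · refine (Set.encard_le_encard fun y hy => ?_).trans (hN y₀)
    by_contra hlt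
    rw [Metric.mem_ball, not_lt] at hlt
    have h1 := ht _ _ ((le_max_left _ _).trans hlt)
    have h2 : f y = x := hy
    have h3 : f y₀ = x := hy₀
    rw [h2, h3, dist_self] at h1
    linarith

/-- Q1 with the control functions written out: `a`, `b` are nondecreasing on the nonnegative
reals and `a` tends to infinity. -/
theorem q1_plain {X Y : Type*} [MetricSpace X] [MetricSpace Y] (hX : ULF X) (hY : ULF Y)
    (f : Y → X) (a b : ℝ → ℝ)
    (ha : ∀ s t, 0 ≤ s → s ≤ t → a s ≤ a t) (hb : ∀ s t, 0 ≤ s → s ≤ t → b s ≤ b t)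
    (hinf : ∀ R : ℝ, ∃ t, ∀ s, t ≤ s → R ≤ a s)
    (hf : ∀ y y', a (dist y y') ≤ dist (f y) (f y') ∧ dist (f y) (f y') ≤ b (dist y y'))
    (h : OnlyCompactGhostProj X) : OnlyCompactGhostProj Y :=
  q1 hX hY f (Ct.coarse_of_plain f a b ha hb hinf hf) h

/-- Q2: the property is invariant under coarse equivalence. -/
theorem q2_plain {X Y : Type*} [MetricSpace X] [MetricSpace Y] (hX : ULF X) (hY : ULF Y)
    (f : Y → X) (a b : ℝ → ℝ)
    (ha : ∀ s t, 0 ≤ s → s ≤ t → a s ≤ a t) (hb : ∀ s t, 0 ≤ s → s ≤ t → b s ≤ b t)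
    (hinf : ∀ R : ℝ, ∃ t, ∀ s, t ≤ s → R ≤ a s)
    (hf : ∀ y y', a (dist y y') ≤ dist (f y) (f y') ∧ dist (f y) (f y') ≤ b (dist y y'))
    (hC : ∃ C : ℝ, ∀ x : X, ∃ y : Y, dist x (f y) ≤ C) :
    OnlyCompactGhostProj X ↔ OnlyCompactGhostProj Y :=
  main_equiv hX hY f (Ct.coarse_of_plain f a b ha hb hinf hf) hC

/-- Control: the property fails for some uniformly locally finite space (an expander sequence). -/
theorem property_can_fail :
    ∃ (X : Type) (_ : MetricSpace X), ULF X ∧ ¬ OnlyCompactGhostProj X :=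
  ⟨Ct.XX, Ct.met, Ct.ulf, Ct.fails⟩

/-- Control: the property holds for the integers, which have sparse subspaces. -/
theorem property_can_hold :
    ULF ℤ ∧ (∃ S : Set ℤ, IsSparse S) ∧ OnlyCompactGhostProj ℤ :=
  ⟨Ct.ulf_int, ⟨_, Ct.sparse_int⟩, Ct.holds_int⟩

end Pool.Agent.Results.MP_7884fa_an.FiniteToOne
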