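import Pool.Agent.P.MP_7884fa_an.Indep
import Pool.Agent.P.MP_7884fa_an.CtGhost
import Pool.Agent.P.MP_7884fa_an.CtPlain

namespace Pool.Agent.Results.MP_7884fa_an.IndependentSet

open Pool.Agent.P.MP_7884fa_an

/-- Up to a finite rank projection, a ghost projection is Murray-von Neumann equivalent in the
uniform Roe algebra to a ghost projection supported on an independent set of any given graph of
bounded degree; the graph need not be related to the metric. -/
theorem result {Y : Type*} [MetricSpace Y] (G : SimpleGraph Y)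
    (hG : ∃ D : ℕ, ∀ y, {z | G.Adj y z}.encard ≤ D)
    (p : Op Y) (h1 : p ∈ uniformRoe Y) (h2 : IsGhost p) (h3 : IsStarProjection p) :
    ∃ T : Set Y, (∀ u ∈ T, ∀ w ∈ T, ¬ G.Adj u w) ∧ ∃ v : Op Y, v ∈ uniformRoe Y ∧
      IsStarProjection (star v * v) ∧ p * (star v * v) = star v * v ∧
      IsCompactOperator (p - star v * v : Op Y) ∧
      IsStarProjection (v * star v) ∧ IsGhost (v * star v) ∧
      ∀ y, y ∉ T → (v * star v) (delta y) = 0 := by
  obtain ⟨D, hD⟩ := hG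
  exact Ind.indep_main G D hD h1 h2 h3

/-- Q1 from `result`: join two points of the sparse subspace when they have the same image. -/
theorem q1 {X Y : Type*} [MetricSpace X] [MetricSpace Y] (_hX : ULF X) (hY : ULF Y)
    (f : Y → X) (a b : ℝ → ℝ)
    (ha : ∀ s t, 0 ≤ s → s ≤ t → a s ≤ a t) (hb : ∀ s t, 0 ≤ s → s ≤ t → b s ≤ b t)
    (hinf : ∀ R : ℝ, ∃ t, ∀ s, t ≤ s → R ≤ a s)
    (hf : ∀ y y', a (dist y y') ≤ dist (f y) (f y') ∧ dist (f y) (f y') ≤ b (dist y y'))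
    (h : OnlyCompactGhostProj X) : OnlyCompactGhostProj Y := by
  have hc := Ct.coarse_of_plain f a b ha hb hinf hf
  intro S hS p h1 h2 h3
  by_contra h4
  obtain ⟨t, ht⟩ := hc.lower 1
  obtain ⟨N, hN⟩ := hY (max t 1) (by positivity)
  obtain ⟨T, hT, v, k1, k2, -, k3, k4, k5, k6⟩ :=
    result (SimpleGraph.fromRel fun u v : S => f u = f v)
    ⟨N, fun y => by
      rw [← Subtype.val_injective.encard_image]
      refine (Set.encard_le_encard ?_).trans (hN y)
      rintro _ ⟨z, hz, rfl⟩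
      by_contra hlt
      rw [Metric.mem_ball, not_lt] at hlt
      have e1 := ht _ _ ((le_max_left _ _).trans hlt)
      have e2 : f z = f y := ((SimpleGraph.fromRel_adj _ _ _).1 hz.out).2.elim Eq.symm id
      rw [e2, dist_self] at e1
      linarith⟩ p h1 h2 h3
  obtain ⟨q, hq⟩ := Ind.restrict h4 k1 k2 k3 k4 k5 k6
  have hinj : ∀ u ∈ T, ∀ v ∈ T, f u = f v → u = v := fun u hu v hv e => by
    by_contra hne
    exact hT u hu v hv ((SimpleGraph.fromRel_adj _ _ _).2 ⟨hne, Or.inl e⟩)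
  have hsp := hS.image hc.lower (T := Subtype.val '' T) (by rintro _ ⟨y, -, rfl⟩; exact y.2)
    (Set.Infinite.image Subtype.val_injective.injOn fun hfin =>
      hq.noncpt (compact_of_finite_support q (have := hfin.to_subtype; Set.toFinite _)))
    (by rintro _ ⟨u, hu, rfl⟩ _ ⟨v, hv, rfl⟩ e; rw [hinj u hu v hv e])
  have hch : ∀ x : f '' (Subtype.val '' T), ∃ y : T, f y.1 = x := by
    rintro ⟨_, _, ⟨y, hy, rfl⟩, rfl⟩
    exact ⟨⟨y, hy⟩, rfl⟩
  choose g hg using hch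
  have hginj : Function.Injective g := fun u v e => Subtype.ext (by rw [← hg, ← hg, e])
  have hb' := hq.transport hginj (fun y _ => ⟨⟨f y.1, y.1, ⟨y.1, y.2, rfl⟩, rfl⟩,
      Subtype.ext (hinj _ (g _).2 _ y.2 (hg _))⟩) fun R => by
    obtain ⟨R', hR'⟩ := hc.upper R
    refine ⟨R', fun x y hxy => ?_⟩
    rw [Subtype.dist_eq, ← hg, ← hg]
    exact hR' _ _ hxy
  exact hb'.noncpt (h _ hsp _ hb'.mem (ghost_of_cols hb'.proj hb'.cols) hb'.proj)

/-- The word `ULF` of `q1`, written out. -/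
theorem ulf_iff (X : Type*) [MetricSpace X] :
    ULF X ↔ ∀ r : ℝ, 0 < r → ∃ N : ℕ, ∀ x : X, {y | dist y x < r}.encard ≤ N := Iff.rfl

/-- The word `IsSparse` inside the property of `q1`, written out. -/
theorem sparse_iff {X : Type*} [MetricSpace X] (S : Set X) :
    IsSparse S ↔ ∃ P : ℕ → Set X, (∀ n, (∃ k : ℕ, (P n).encard ≤ k) ∧ ∃ x, x ∈ P n) ∧
      (∀ n m, n ≠ m → ∀ x ∈ P n, x ∉ P m) ∧ (⋃ n, P n) = S ∧
      ∀ R : ℝ, ∃ N : ℕ, ∀ n m, n ≠ m → N ≤ n + m → ∀ x ∈ P n, ∀ y ∈ P m, R ≤ dist x y := by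
  simp only [IsSparse, Set.disjoint_left, Set.Nonempty]
  refine exists_congr fun P => and_congr_left' (forall_congr' fun n => and_congr_left' ?_)
  exact ⟨fun h => ⟨_, h.encard_eq_coe_toFinset_card.le⟩,
    fun ⟨_, h⟩ => Set.finite_of_encard_le_coe h⟩

/-- A non-compact ghost projection survives in the uniform Roe algebra of an independent set. -/
theorem survives {Y : Type*} [MetricSpace Y] (G : SimpleGraph Y)
    (hG : ∃ D : ℕ, ∀ y, {z | G.Adj y z}.encard ≤ D)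
    (p : Op Y) (h1 : p ∈ uniformRoe Y) (h2 : IsGhost p) (h3 : IsStarProjection p)
    (h4 : ¬ IsCompactOperator p) :
    ∃ T : Set Y, (∀ u ∈ T, ∀ w ∈ T, ¬ G.Adj u w) ∧ ∃ q : Op T,
      q ∈ uniformRoe T ∧ IsGhost q ∧ IsStarProjection q ∧ ¬ IsCompactOperator q := by
  obtain ⟨T, hT, v, k1, k2, -, k3, k4, k5, k6⟩ := result G hG p h1 h2 h3
  obtain ⟨q, hq⟩ := Ind.restrict h4 k1 k2 k3 k4 k5 k6
  exact ⟨T, hT, q, hq.mem, ghost_of_cols hq.proj hq.cols, hq.proj, hq.noncpt⟩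

/-- In a uniformly locally finite space the subset can be taken `R`-separated. -/
theorem separated {Y : Type*} [MetricSpace Y] (hY : ULF Y) (R : ℝ)
    (p : Op Y) (h1 : p ∈ uniformRoe Y) (h2 : IsGhost p) (h3 : IsStarProjection p)
    (h4 : ¬ IsCompactOperator p) :
    ∃ T : Set Y, (∀ u ∈ T, ∀ v ∈ T, u ≠ v → R ≤ dist u v) ∧ ∃ q : Op T,
      q ∈ uniformRoe T ∧ IsGhost q ∧ IsStarProjection q ∧ ¬ IsCompactOperator q := by
  obtain ⟨N, hN⟩ := hY (max R 1) (by positivity)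
  obtain ⟨T, hT, hq⟩ := survives (SimpleGraph.fromRel fun u v : Y => dist u v < R)
    ⟨N, fun y => (Set.encard_le_encard fun z hz => by
      have e : dist z y < R :=
        ((SimpleGraph.fromRel_adj _ _ _).1 hz.out).2.elim (fun h => dist_comm y z ▸ h) id
      exact e.trans_le (le_max_left _ _)).trans (hN y)⟩ p h1 h2 h3 h4
  refine ⟨T, fun u hu v hv hne => not_lt.1 fun hlt => ?_, hq⟩
  exact hT u hu v hv ((SimpleGraph.fromRel_adj _ _ _).2 ⟨hne, Or.inl hlt⟩)

/-- Control: the hypotheses on `p` are met on a uniformly locally finite space. -/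
theorem hypotheses_met : ∃ (Y : Type) (_ : MetricSpace Y), ULF Y ∧ ∃ p : Op Y,
    p ∈ uniformRoe Y ∧ IsGhost p ∧ IsStarProjection p ∧ ¬ IsCompactOperator p :=
  ⟨Ct.XX, Ct.met, Ct.ulf, Ct.pp, (@Bad.mem _ Ct.met _ Ct.pp_bad),
    ghost_of_cols Ct.pp_proj Ct.pp_cols, Ct.pp_proj, Ct.pp_noncpt⟩

end Pool.Agent.Results.MP_7884fa_an.IndependentSet
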